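import Mathlib

set_option autoImplicit false

namespace Pool.Agent.Results.MP_251bf7_co.Disconnected

open Set Metric Topology

variable {X : Type*} [MetricSpace X]

/-- A compact region: a compact set that is the closure of its interior. -/
def IsRegion (C : Set X) : Prop := IsCompact C ∧ C = closure (interior C)

/-- The points of `P` have pairwise distances at least `f`. -/
def Separated (P : Finset X) (f : ℝ) : Prop :=
  ∀ p ∈ P, ∀ q ∈ P, p ≠ q → f ≤ dist p q

/-- `f_C(n)`: the largest `f` such that some `n` points of `C` have pairwise distances all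
at least `f`. -/
noncomputable def fmax (C : Set X) (n : ℕ) : ℝ :=
  sSup {f : ℝ | ∃ P : Finset X, (P : Set X) ⊆ C ∧ P.card = n ∧ Separated P f}

/-- The minimum pairwise distance of `P`. -/
noncomputable def minDist (P : Finset X) : ℝ :=
  sInf {r : ℝ | ∃ p ∈ P, ∃ q ∈ P, p ≠ q ∧ r = dist p q}

/-- An extremal `n`-point set of `C`. -/
def Extremal (C : Set X) (n : ℕ) (P : Finset X) : Prop :=
  (P : Set X) ⊆ C ∧ P.card = n ∧ minDist P = fmax C n

open Classical in
/-- The point `p` of the set `P` is freely movable in `C`. -/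
def FreelyMovable (C : Set X) (n : ℕ) (P : Finset X) (p : X) : Prop :=
  ∃ γ : unitInterval → X, Continuous γ ∧ γ 0 = p ∧ (∃ t, γ t ≠ p) ∧ (∀ t, γ t ∈ C) ∧
    ∀ t, (insert (γ t) (P.erase p)).card = n ∧ fmax C n ≤ minDist (insert (γ t) (P.erase p))

/-- There are infinitely many `n` for which some extremal `n`-point set of `C` has a freely
movable point. -/
def InfinitelyOftenMovable (C : Set X) : Prop :=
  {n : ℕ | 2 ≤ n ∧ ∃ P : Finset X, Extremal C n P ∧ ∃ p ∈ P, FreelyMovable C n P p}.Infinite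

lemma le_minDist {P : Finset X} {f : ℝ} (h : Separated P f) (hP : 2 ≤ P.card) :
    f ≤ minDist P := by
  obtain ⟨p, hp, q, hq, hpq⟩ := Finset.one_lt_card.mp (by omega : 1 < P.card)
  refine le_csInf ⟨_, p, hp, q, hq, hpq, rfl⟩ ?_
  rintro r ⟨p, hp, q, hq, hpq, rfl⟩
  exact h p hp q hq hpq

lemma separated_minDist (P : Finset X) : Separated P (minDist P) := by
  intro p hp q hq hpq
  refine csInf_le ⟨0, ?_⟩ ⟨p, hp, q, hq, hpq, rfl⟩
  rintro r ⟨p, hp, q, hq, hpq, rfl⟩
  exact dist_nonneg

/-- The maximum defining `f_C(n)` is attained, and is positive. -/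
lemma fmax_spec {C : Set X} (hC : IsCompact C) (hinf : C.Infinite) {n : ℕ} (hn : 2 ≤ n) :
    (∃ P : Finset X, (P : Set X) ⊆ C ∧ P.card = n ∧ Separated P (fmax C n)) ∧
      0 < fmax C n ∧
      ∀ (P : Finset X) (f : ℝ), (P : Set X) ⊆ C → P.card = n → Separated P f → f ≤ fmax C n := by
  classical
  have hne : (Finset.univ : Finset (Fin n)).offDiag.Nonempty := by
    refine ⟨(⟨0, by omega⟩, ⟨1, by omega⟩), ?_⟩
    simp
  let g : (Fin n → X) → ℝ := fun x =>
    (Finset.univ : Finset (Fin n)).offDiag.inf' hne fun ij => dist (x ij.1) (x ij.2)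
  have hg : Continuous g := by
    refine Continuous.finset_inf'_apply hne ?_
    intro ij _
    exact (continuous_apply ij.1).dist (continuous_apply ij.2)
  have hK : IsCompact (Set.univ.pi fun _ : Fin n => C) := isCompact_univ_pi fun _ => hC
  obtain ⟨s, hsC, hs⟩ := hinf.exists_subset_card_eq n
  let e := s.equivFinOfCardEq hs
  let x0 : Fin n → X := fun i => (e.symm i : X)
  have hx0 : x0 ∈ Set.univ.pi fun _ : Fin n => C := fun i _ => hsC (e.symm i).2
  obtain ⟨x, hxK, hx⟩ := hK.exists_isMaxOn ⟨x0, hx0⟩ hg.continuousOn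
  have hpos : 0 < g x := by
    refine lt_of_lt_of_le ?_ (hx hx0)
    rw [Finset.lt_inf'_iff]
    rintro ⟨i, j⟩ hij
    rw [Finset.mem_offDiag] at hij
    refine dist_pos.mpr fun h => hij.2.2 ?_
    have : e.symm i = e.symm j := Subtype.ext h
    exact e.symm.injective this
  have hgle : ∀ i j, i ≠ j → g x ≤ dist (x i) (x j) := by
    intro i j hij
    exact Finset.inf'_le (fun ij : Fin n × Fin n => dist (x ij.1) (x ij.2))
      (by simpa using hij : (i, j) ∈ (Finset.univ : Finset (Fin n)).offDiag)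
  have hinj : Function.Injective x := by
    intro i j hij
    by_contra hne'
    have := hgle i j hne'
    rw [hij, dist_self] at this
    linarith
  have hPx : ((Finset.univ.image x : Finset X) : Set X) ⊆ C ∧
      (Finset.univ.image x).card = n ∧ Separated (Finset.univ.image x) (g x) := by
    refine ⟨?_, ?_, ?_⟩
    · intro y hy
      simp only [Finset.coe_image, Finset.coe_univ, Set.image_univ, Set.mem_range] at hy
      obtain ⟨i, rfl⟩ := hy
      exact hxK i trivial
    · rw [Finset.card_image_of_injective _ hinj]; simp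
    · intro p hp q hq hpq
      simp only [Finset.mem_image, Finset.mem_univ, true_and] at hp hq
      obtain ⟨i, rfl⟩ := hp
      obtain ⟨j, rfl⟩ := hq
      exact hgle i j fun h => hpq (by rw [h])
  have hub : ∀ (P : Finset X) (f : ℝ), (P : Set X) ⊆ C → P.card = n → Separated P f →
      f ≤ g x := by
    intro P f hPC hPn hPf
    let e' := P.equivFinOfCardEq hPn
    let y : Fin n → X := fun i => (e'.symm i : X)
    have hy : y ∈ Set.univ.pi fun _ : Fin n => C := fun i _ => hPC (e'.symm i).2
    refine le_trans ?_ (hx hy)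
    rw [Finset.le_inf'_iff]
    rintro ⟨i, j⟩ hij
    rw [Finset.mem_offDiag] at hij
    refine hPf _ (e'.symm i).2 _ (e'.symm j).2 fun h => hij.2.2 ?_
    exact e'.symm.injective (Subtype.ext h)
  have hfm : fmax C n = g x := by
    apply le_antisymm
    · refine csSup_le ⟨g x, _, hPx⟩ ?_
      rintro f ⟨P, hPC, hPn, hPf⟩
      exact hub P f hPC hPn hPf
    · refine le_csSup ⟨g x, ?_⟩ ⟨_, hPx⟩
      rintro f ⟨P, hPC, hPn, hPf⟩
      exact hub P f hPC hPn hPf
  rw [hfm]
  exact ⟨⟨_, hPx⟩, hpos, hub⟩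

/-- Separated subsets of a compact set have bounded size. -/
lemma exists_card_bound {C : Set X} (hC : IsCompact C) {r : ℝ} (hr : 0 < r) :
    ∃ m : ℕ, ∀ P : Finset X, (P : Set X) ⊆ C → Separated P r → P.card ≤ m := by
  classical
  obtain ⟨t, -, htf, ht⟩ := hC.finite_cover_balls (half_pos hr)
  refine ⟨htf.toFinset.card, fun P hPC hP => ?_⟩
  have hch : ∀ p ∈ P, ∃ c ∈ t, p ∈ ball c (r / 2) := by
    intro p hp
    simpa using ht (hPC hp)
  choose! c hc1 hc2 using hch
  refine Finset.card_le_card_of_injOn c (fun p hp => by simpa using hc1 p hp) ?_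
  intro p hp q hq hpq
  by_contra hne
  have h1 := hP p hp q hq hne
  have h2 := hc2 p hp
  have h3 := hc2 q hq
  rw [mem_ball] at h2 h3
  rw [← hpq] at h3
  have := dist_triangle_right p q (c p)
  linarith

/-- Every point of the space can be moved along a non-constant path inside each of its
neighbourhoods. -/
def HasPaths (X : Type*) [TopologicalSpace X] : Prop :=
  ∀ x : X, ∀ U ∈ 𝓝 x, ∃ γ : unitInterval → X, Continuous γ ∧ γ 0 = x ∧ (∃ t, γ t ≠ x) ∧
    ∀ t, γ t ∈ U

/-- The main argument: `f_C(n)` drops at `n`, an optimal set of one part is joined to a set of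
the other part with larger distances. -/
lemma key {C A B : Set X} (hX : HasPaths X) (hreg : IsRegion C)
    (hAC : A ⊆ C) (hBC : B ⊆ C) {n : ℕ} (hn : 2 ≤ n) {g : ℝ} {δ : ℝ}
    (hδ : ∀ a ∈ A, ∀ b ∈ B, δ ≤ dist a b) (hnδ : fmax C n < δ) (hng : fmax C n < g)
    (hub : ∀ (P : Finset X) (f : ℝ), (P : Set X) ⊆ C → P.card = n → Separated P f →
      f ≤ fmax C n)
    (hpos : 0 < fmax C n)
    {P Q : Finset X} (hP : (P : Set X) ⊆ A) (hQ : (Q : Set X) ⊆ B)
    (hPs : Separated P (fmax C n)) (hQs : Separated Q g) (hcard : P.card + Q.card = n)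
    (hQ0 : Q.Nonempty) :
    ∃ R : Finset X, Extremal C n R ∧ ∃ p ∈ R, FreelyMovable C n R p := by
  classical
  obtain ⟨p, hp⟩ := hQ0
  set F := fmax C n with hF
  set s := min g δ - F with hs
  have hs0 : 0 < s := by
    have : F < min g δ := lt_min hng hnδ
    linarith
  have hFs : F + s = min g δ := by rw [hs]; ring
  -- the other points
  set S : Finset X := P ∪ Q.erase p with hS
  have hdis : Disjoint P Q := by
    rw [Finset.disjoint_left]
    intro x hxP hxQ
    have := hδ x (hP hxP) x (hQ hxQ)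
    rw [dist_self] at this
    linarith
  have hSC : (S : Set X) ⊆ C := by
    intro x hx
    simp only [hS, Finset.coe_union, Finset.coe_erase, Set.mem_union, Finset.mem_coe,
      Set.mem_sdiff, Set.mem_singleton_iff] at hx
    rcases hx with hx | hx
    · exact hAC (hP hx)
    · exact hBC (hQ hx.1)
  have hScard : S.card + 1 = n := by
    rw [hS, Finset.card_union_of_disjoint (hdis.mono_right (Finset.erase_subset _ _)),
      Finset.card_erase_of_mem hp, ← hcard]
    have := Finset.card_pos.mpr ⟨p, hp⟩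
    omega
  have hSs : Separated S F := by
    intro x hx y hy hxy
    simp only [hS, Finset.mem_union, Finset.mem_erase] at hx hy
    rcases hx with hx | hx <;> rcases hy with hy | hy
    · exact hPs x hx y hy hxy
    · exact (hδ x (hP hx) y (hQ hy.2)).trans' hnδ.le
    · rw [dist_comm]
      exact (hδ y (hP hy) x (hQ hx.2)).trans' hnδ.le
    · exact (hQs x hx.2 y hy.2 hxy).trans' hng.le
  have hpS : ∀ x ∈ S, F + s ≤ dist p x := by
    intro x hx
    rw [hFs]
    simp only [hS, Finset.mem_union, Finset.mem_erase] at hx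
    rcases hx with hx | hx
    · rw [dist_comm]
      exact (min_le_right _ _).trans (hδ x (hP hx) p (hQ hp))
    · exact (min_le_left _ _).trans (hQs p hp x hx.2 (Ne.symm hx.1))
  -- a nearby interior point
  have hpC : p ∈ closure (interior C) := by
    rw [← hreg.2]; exact hBC (hQ hp)
  obtain ⟨p', hp'C, hpp'⟩ := Metric.mem_closure_iff.mp hpC (s / 2) (half_pos hs0)
  obtain ⟨γ, hγc, hγ0, hγne, hγU⟩ := hX p' (interior C ∩ ball p' (s / 2))
    (Filter.inter_mem (isOpen_interior.mem_nhds hp'C) (ball_mem_nhds _ (half_pos hs0)))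
  have hγS : ∀ t, ∀ x ∈ S, F ≤ dist (γ t) x := by
    intro t x hx
    have h1 := hpS x hx
    have h2 : dist (γ t) p' < s / 2 := by simpa using (hγU t).2
    have h3 := dist_triangle4 p p' (γ t) x
    rw [dist_comm p' (γ t)] at h3
    linarith
  have hγnS : ∀ t, γ t ∉ S := by
    intro t ht
    have := hγS t _ ht
    rw [dist_self] at this
    linarith
  have hins : ∀ t, ((insert (γ t) S : Finset X) : Set X) ⊆ C ∧ (insert (γ t) S).card = n ∧
      Separated (insert (γ t) S) F := by
    intro t
    refine ⟨?_, ?_, ?_⟩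
    · intro x hx
      simp only [Finset.coe_insert, Set.mem_insert_iff, Finset.mem_coe] at hx
      rcases hx with rfl | hx
      · exact interior_subset (hγU t).1
      · exact hSC hx
    · rw [Finset.card_insert_of_notMem (hγnS t)]; exact hScard
    · intro x hx y hy hxy
      simp only [Finset.mem_insert] at hx hy
      rcases hx with rfl | hx <;> rcases hy with rfl | hy
      · exact absurd rfl hxy
      · exact hγS t y hy
      · rw [dist_comm]; exact hγS t x hx
      · exact hSs x hx y hy hxy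
  have hmd : ∀ t, minDist (insert (γ t) S) = F := by
    intro t
    obtain ⟨h1, h2, h3⟩ := hins t
    exact le_antisymm (hub _ _ h1 h2 (separated_minDist _)) (le_minDist h3 (by omega))
  refine ⟨insert p' S, ?_, p', Finset.mem_insert_self _ _, ?_⟩
  · have := hins 0
    rw [hγ0] at this
    refine ⟨this.1, this.2.1, ?_⟩
    have h := hmd 0
    rwa [hγ0] at h
  · have hers : (insert p' S).erase p' = S := by
      rw [Finset.erase_insert]
      rw [← hγ0]; exact hγnS 0
    refine ⟨γ, hγc, hγ0, hγne, fun t => interior_subset (hγU t).1, fun t => ?_⟩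
    rw [hers]
    exact ⟨(hins t).2.1, (hmd t).ge⟩

theorem main (hX : HasPaths X) {C : Set X} (hreg : IsRegion C) (hd : ¬ IsPreconnected C) :
    InfinitelyOftenMovable C := by
  classical
  -- the two parts
  obtain ⟨u, v, hu, hv, huv, hCu, hCv, hCuv⟩ :
      ∃ u v : Set X, IsOpen u ∧ IsOpen v ∧ C ⊆ u ∪ v ∧ (C ∩ u).Nonempty ∧ (C ∩ v).Nonempty ∧
        ¬ (C ∩ (u ∩ v)).Nonempty := by
    unfold IsPreconnected at hd
    push Not at hd
    obtain ⟨u, v, h1, h2, h3, h4, h5, h6⟩ := hd
    exact ⟨u, v, h1, h2, h3, h4, h5, by rw [h6]; simp⟩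
  have hC := hreg.1
  set A := C \ v with hA
  set B := C \ u with hB
  have hAc : IsCompact A := hC.diff hv
  have hBc : IsCompact B := hC.diff hu
  have hAB : Disjoint A B := by
    rw [Set.disjoint_left]
    rintro x ⟨hxC, hxv⟩ ⟨-, hxu⟩
    rcases huv hxC with h | h
    · exact hxu h
    · exact hxv h
  have hun : ∀ x ∈ C, x ∈ A ∨ x ∈ B := by
    intro x hx
    by_cases h : x ∈ v
    · right
      refine ⟨hx, fun h' => hCuv ⟨x, hx, h', h⟩⟩
    · exact Or.inl ⟨hx, h⟩
  obtain ⟨a0, ha0⟩ : A.Nonempty := by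
    obtain ⟨x, hx, hxu⟩ := hCu
    exact ⟨x, hx, fun h => hCuv ⟨x, hx, hxu, h⟩⟩
  obtain ⟨b0, hb0⟩ : B.Nonempty := by
    obtain ⟨x, hx, hxv⟩ := hCv
    exact ⟨x, hx, fun h => hCuv ⟨x, hx, h, hxv⟩⟩
  obtain ⟨δ, hδ0, hδ⟩ := hAB.exists_thickenings hAc hBc.isClosed
  have hδ' : ∀ a ∈ A, ∀ b ∈ B, δ ≤ dist a b := by
    intro a ha b hb
    by_contra hlt
    push Not at hlt
    refine Set.disjoint_left.mp hδ (Metric.self_subset_thickening hδ0 A ha) ?_
    rw [Metric.mem_thickening_iff]
    exact ⟨b, hb, hlt⟩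
  -- infinitely many points
  have hinf : C.Infinite := by
    have h1 : (interior C).Nonempty := by
      by_contra h
      rw [Set.not_nonempty_iff_eq_empty] at h
      have h2 := hreg.2
      rw [h, closure_empty] at h2
      exact (h2 ▸ (show a0 ∈ C from ha0.1) : a0 ∈ (∅ : Set X))
    obtain ⟨x, hx⟩ := h1
    obtain ⟨γ, hγc, hγ0, ⟨t, ht⟩, hγU⟩ := hX x _ (isOpen_interior.mem_nhds hx)
    have hr : (Set.range γ).Infinite := by
      refine (isPreconnected_range hγc).infinite_of_nontrivial ?_
      exact ⟨γ t, ⟨t, rfl⟩, x, ⟨0, hγ0⟩, ht⟩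
    refine hr.mono ?_
    rintro _ ⟨t, rfl⟩
    exact interior_subset (hγU t)
  have hsp := fun (n : ℕ) (hn : 2 ≤ n) => fmax_spec hC hinf hn
  refine Set.infinite_of_forall_exists_gt fun N => ?_
  -- an index at which `f_C` drops
  set n0 := max N 2 with hn0
  set r := min (fmax C n0) δ with hr
  have hr0 : 0 < r := lt_min (hsp n0 (le_max_right _ _)).2.1 hδ0
  obtain ⟨m, hm⟩ := exists_card_bound hC hr0
  have hex : ∃ k, fmax C (n0 + k) < r := by
    refine ⟨m + 1, ?_⟩
    by_contra h
    push Not at h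
    obtain ⟨P, hPC, hPc, hPs⟩ := (hsp (n0 + (m + 1)) (by omega)).1
    have := hm P hPC (fun p hp q hq hpq => h.trans (hPs p hp q hq hpq))
    omega
  set k := Nat.find hex with hk
  have hk1 : fmax C (n0 + k) < r := Nat.find_spec hex
  have hk0 : 0 < k := by
    rcases Nat.eq_zero_or_pos k with h | h
    · rw [h, add_zero] at hk1
      exact absurd (min_le_left _ _) (not_le.mpr hk1)
    · exact h
  have hk2 : r ≤ fmax C (n0 + (k - 1)) := by
    have := Nat.find_min hex (m := k - 1) (by omega)
    exact not_lt.mp this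
  set n := n0 + k with hn
  have hn2 : 3 ≤ n := by omega
  have hnδ : fmax C n < δ := lt_of_lt_of_le hk1 (min_le_right _ _)
  obtain ⟨⟨P, hPC, hPn, hPs⟩, hpos, hub⟩ := hsp n (by omega)
  obtain ⟨⟨Q, hQC, hQn, hQs⟩, -, -⟩ := hsp (n0 + (k - 1)) (by omega)
  set g := fmax C (n0 + (k - 1)) with hg
  have hng : fmax C n < g := lt_of_lt_of_le hk1 hk2
  refine ⟨n, ⟨by omega, ?_⟩, by omega⟩
  -- replace `P` by an optimal set meeting both parts
  obtain ⟨PA, PB, hPA, hPB, hPAs, hPBs, hPAn, hPBn, hPc⟩ :
      ∃ PA PB : Finset X, (PA : Set X) ⊆ A ∧ (PB : Set X) ⊆ B ∧ Separated PA (fmax C n) ∧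
        Separated PB (fmax C n) ∧ PA.Nonempty ∧ PB.Nonempty ∧ PA.card + PB.card = n := by
    have hsub : ∀ (T : Finset X), T ⊆ P → Separated T (fmax C n) := by
      intro T hT p hp q hq hpq
      exact hPs p (hT hp) q (hT hq) hpq
    set PA := P.filter (· ∈ A) with hPAd
    set PB := P.filter (¬ · ∈ A) with hPBd
    have hc : PA.card + PB.card = n := by
      rw [hPAd, hPBd, Finset.card_filter_add_card_filter_not, hPn]
    have hPAA : (PA : Set X) ⊆ A := by
      intro x hx
      simp only [hPAd, Finset.coe_filter, Set.mem_ofPred_eq] at hx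
      exact hx.2
    have hPBB : (PB : Set X) ⊆ B := by
      intro x hx
      simp only [hPBd, Finset.coe_filter, Set.mem_ofPred_eq] at hx
      exact (hun x (hPC hx.1)).resolve_left hx.2
    have hsing : ∀ x : X, Separated {x} (fmax C n) := by
      intro x p hp q hq hpq
      rw [Finset.mem_singleton] at hp hq
      exact absurd (hp.trans hq.symm) hpq
    rcases PA.eq_empty_or_nonempty with hA0 | hA0
    · have hcB : PB.card = n := by rw [hA0] at hc; simpa using hc
      obtain ⟨y, hy⟩ : PB.Nonempty := by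
        rw [← Finset.card_pos]; omega
      refine ⟨{a0}, PB.erase y, by simpa using ha0, ?_, hsing a0,
        hsub _ ((Finset.erase_subset _ _).trans (Finset.filter_subset _ _)),
        Finset.singleton_nonempty _, ?_, ?_⟩
      · exact (Finset.coe_subset.mpr (Finset.erase_subset _ _)).trans hPBB
      · rw [← Finset.card_pos, Finset.card_erase_of_mem hy]; omega
      · rw [Finset.card_erase_of_mem hy, Finset.card_singleton]; omega
    · rcases PB.eq_empty_or_nonempty with hB0 | hB0
      · have hcA : PA.card = n := by rw [hB0] at hc; simpa using hc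
        obtain ⟨y, hy⟩ := hA0
        refine ⟨PA.erase y, {b0}, ?_, by simpa using hb0,
          hsub _ ((Finset.erase_subset _ _).trans (Finset.filter_subset _ _)), hsing b0,
          ?_, Finset.singleton_nonempty _, ?_⟩
        · exact (Finset.coe_subset.mpr (Finset.erase_subset _ _)).trans hPAA
        · rw [← Finset.card_pos, Finset.card_erase_of_mem hy]; omega
        · rw [Finset.card_erase_of_mem hy, Finset.card_singleton]; omega
      · exact ⟨PA, PB, hPAA, hPBB, hsub _ (Finset.filter_subset _ _),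
          hsub _ (Finset.filter_subset _ _), hA0, hB0, hc⟩
  have hQsub : ∀ (T : Finset X), T ⊆ Q → Separated T g := by
    intro T hT p hp q hq hpq
    exact hQs p (hT hp) q (hT hq) hpq
  have hQcard : (Q.filter (· ∈ A)).card + (Q.filter (¬ · ∈ A)).card = n - 1 := by
    rw [Finset.card_filter_add_card_filter_not, hQn]; omega
  have hpA := Finset.card_pos.mpr hPAn
  have hpB := Finset.card_pos.mpr hPBn
  by_cases hcase : PB.card ≤ (Q.filter (¬ · ∈ A)).card
  · obtain ⟨T, hT, hTc⟩ := Finset.exists_subset_card_eq hcase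
    refine key hX hreg (A := A) (B := B) sdiff_subset sdiff_subset (by omega) hδ' hnδ hng hub hpos
      hPA ?_ hPAs (hQsub T (hT.trans (Finset.filter_subset _ _))) (by rw [hTc]; exact hPc) ?_
    · intro x hx
      have := hT hx
      simp only [Finset.mem_filter] at this
      exact (hun x (hQC this.1)).resolve_left this.2
    · rw [← Finset.card_pos]; omega
  · have hcase' : PA.card ≤ (Q.filter (· ∈ A)).card := by omega
    obtain ⟨T, hT, hTc⟩ := Finset.exists_subset_card_eq hcase'
    refine key hX hreg (A := B) (B := A) sdiff_subset sdiff_subset (by omega)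
      (fun a ha b hb => by rw [dist_comm]; exact hδ' b hb a ha) hnδ hng hub hpos
      hPB ?_ hPBs (hQsub T (hT.trans (Finset.filter_subset _ _))) (by rw [hTc]; omega) ?_
    · intro x hx
      have := hT hx
      simp only [Finset.mem_filter] at this
      exact this.2
    · rw [← Finset.card_pos]; omega

/-- Paths in Euclidean space. -/
lemma hasPaths_euclidean {d : ℕ} (hd : 1 ≤ d) : HasPaths (EuclideanSpace ℝ (Fin d)) := by
  intro x U hU
  obtain ⟨ε, hε, hεU⟩ := Metric.mem_nhds_iff.mp hU
  let w : EuclideanSpace ℝ (Fin d) := EuclideanSpace.single ⟨0, by omega⟩ (ε / 2)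
  have hw : ‖w‖ = ε / 2 := by
    simp only [w, EuclideanSpace.norm_single, Real.norm_eq_abs]
    exact abs_of_pos (half_pos hε)
  refine ⟨fun t => x + (t : ℝ) • w, by fun_prop, by simp, ⟨1, ?_⟩, fun t => hεU ?_⟩
  · simp only [Set.Icc.coe_one, one_smul]
    intro h
    have : w = 0 := by simpa using h
    rw [this, norm_zero] at hw
    linarith
  · rw [mem_ball, dist_eq_norm, add_sub_cancel_left, norm_smul, hw, Real.norm_eq_abs,
      abs_of_nonneg t.2.1]
    nlinarith [t.2.2, t.2.1]

/-- Paths on a sphere. -/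
lemma hasPaths_sphere {d : ℕ} (hd : 1 ≤ d) :
    HasPaths (sphere (0 : EuclideanSpace ℝ (Fin (d + 1))) 1) := by
  intro x U hU
  -- a unit vector orthogonal to x
  have hx1 : ‖(x : EuclideanSpace ℝ (Fin (d + 1)))‖ = 1 := by
    simp
  obtain ⟨y, hy1, hy2⟩ : ∃ y : EuclideanSpace ℝ (Fin (d + 1)), ‖y‖ = 1 ∧
      inner ℝ (x : EuclideanSpace ℝ (Fin (d + 1))) y = 0 := by
    have hx0 : (x : EuclideanSpace ℝ (Fin (d + 1))) ≠ 0 := by
      intro h; rw [h, norm_zero] at hx1; exact zero_ne_one hx1
    have : Fact (Module.finrank ℝ (EuclideanSpace ℝ (Fin (d + 1))) = d + 1) := ⟨by simp⟩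
    have hfr := Submodule.finrank_orthogonal_span_singleton (𝕜 := ℝ) (n := d) hx0
    have hne : (Submodule.span ℝ {(x : EuclideanSpace ℝ (Fin (d + 1)))})ᗮ ≠ ⊥ := by
      intro h
      rw [h, finrank_bot] at hfr
      omega
    obtain ⟨z, hz, hz0⟩ := Submodule.exists_mem_ne_zero_of_ne_bot hne
    rw [Submodule.mem_orthogonal_singleton_iff_inner_right] at hz
    refine ⟨(‖z‖)⁻¹ • z, ?_, ?_⟩
    · rw [norm_smul, norm_inv, norm_norm, inv_mul_cancel₀ (norm_ne_zero_iff.mpr hz0)]
    · rw [inner_smul_right, hz, mul_zero]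
  let c : ℝ → sphere (0 : EuclideanSpace ℝ (Fin (d + 1))) 1 := fun t =>
    ⟨Real.cos t • (x : EuclideanSpace ℝ (Fin (d + 1))) + Real.sin t • y, by
      rw [mem_sphere_zero_iff_norm]
      have h : ‖Real.cos t • (x : EuclideanSpace ℝ (Fin (d + 1))) + Real.sin t • y‖ ^ 2 = 1 := by
        rw [norm_add_sq_real, norm_smul, norm_smul, inner_smul_left, inner_smul_right, hy2, hx1,
          hy1]
        simp only [Real.norm_eq_abs, mul_one, sq_abs, mul_zero, add_zero]
        exact Real.cos_sq_add_sin_sq t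
      nlinarith [norm_nonneg (Real.cos t • (x : EuclideanSpace ℝ (Fin (d + 1))) +
        Real.sin t • y)]⟩
  have hc : Continuous c := by
    refine Continuous.subtype_mk ?_ _
    fun_prop
  have hc0 : c 0 = x := by
    apply Subtype.ext
    simp [c]
  have hnb : c ⁻¹' U ∈ 𝓝 (0 : ℝ) := hc.continuousAt.preimage_mem_nhds (by rw [hc0]; exact hU)
  obtain ⟨ε, hε, hεU⟩ := Metric.mem_nhds_iff.mp hnb
  set η := min ε 1 / 2 with hη
  have hη0 : 0 < η := by
    have : 0 < min ε 1 := lt_min hε one_pos
    linarith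
  have hη1 : η < ε := by
    have : min ε 1 ≤ ε := min_le_left _ _
    linarith
  have hη2 : η ≤ 1 := by
    have : min ε 1 ≤ 1 := min_le_right _ _
    linarith
  refine ⟨fun t => c (η * t), hc.comp (by fun_prop), by simp [hc0], ⟨1, ?_⟩, fun t => hεU ?_⟩
  · simp only [Set.Icc.coe_one, mul_one]
    intro h
    have h1 : inner ℝ y ((c η : EuclideanSpace ℝ (Fin (d + 1)))) = Real.sin η := by
      simp only [c]
      rw [inner_add_right, inner_smul_right, inner_smul_right, real_inner_comm, hy2,
        real_inner_self_eq_norm_sq, hy1]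
      ring
    rw [h, real_inner_comm, hy2] at h1
    have h2 : 0 < Real.sin η := Real.sin_pos_of_pos_of_lt_pi hη0 (by linarith [Real.pi_gt_three])
    linarith
  · rw [mem_ball, dist_zero_right, Real.norm_eq_abs, abs_of_nonneg (mul_nonneg hη0.le t.2.1)]
    nlinarith [t.2.2, t.2.1]

theorem result :
    (∀ d : ℕ, 1 ≤ d → ∀ C : Set (EuclideanSpace ℝ (Fin d)), IsRegion C → ¬ IsPreconnected C →
      InfinitelyOftenMovable C) ∧
    (∀ d : ℕ, 1 ≤ d → ∀ C : Set (sphere (0 : EuclideanSpace ℝ (Fin (d + 1))) 1),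
      IsRegion C → ¬ IsPreconnected C → InfinitelyOftenMovable C) :=
  ⟨fun _ hd _ h1 h2 => main (hasPaths_euclidean hd) h1 h2,
    fun _ hd _ h1 h2 => main (hasPaths_sphere hd) h1 h2⟩

end Pool.Agent.Results.MP_251bf7_co.Disconnected
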